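import Pool.Agent.Q35.ZC.Stm4

/-!
Job SMB of project ZC (helper35): smoothness after an extension of number fields.
-/

set_option autoImplicit false

namespace Pool.Agent.Q221.ZC

open MvPolynomial Pool.Agent.Q35.TT Pool.Agent.Q35.ZC

theorem mo_map {R S : Type} [CommRing R] [CommRing S] (ψ : R →+* S) {n : ℕ} (m : Fin n →₀ ℕ)
    (x : Fin n → Fin 2 → R) (i : Fin n) :
    ψ (mo m x i) = mo m (fun j k => ψ (x j k)) i := by
  unfold mo
  rw [map_prod]
  refine Finset.prod_congr rfl fun j _ => ?_
  rw [map_mul, map_pow, map_pow]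

/-- the coefficients, as a sum over all larger sets of exponents -/
theorem lc_eq_sum {R : Type} [CommRing R] {n : ℕ} (f : MvPolynomial (Fin n) R)
    (x : Fin n → Fin 2 → R) (i : Fin n) (k : Fin 5) (s : Finset (Fin n →₀ ℕ))
    (hs : f.support ⊆ s) :
    lc f x i k = ∑ m ∈ s with m i = (k : ℕ), f.coeff m * mo m x i := by
  unfold lc
  refine Finset.sum_subset (Finset.filter_subset_filter _ hs) fun m hm hm' => ?_
  have h1 : m ∉ f.support := fun h => hm' (Finset.mem_filter.2 ⟨h, (Finset.mem_filter.1 hm).2⟩)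
  rw [MvPolynomial.notMem_support_iff.1 h1, zero_mul]

theorem lc_map {R S : Type} [CommRing R] [CommRing S] (ψ : R →+* S) {n : ℕ}
    (f : MvPolynomial (Fin n) R) (x : Fin n → Fin 2 → R) (i : Fin n) (k : Fin 5) :
    ψ (lc f x i k) = lc (map ψ f) (fun j k => ψ (x j k)) i k := by
  rw [lc_eq_sum (map ψ f) _ i k f.support (MvPolynomial.support_map_subset ψ f)]
  unfold lc
  rw [map_sum]
  refine Finset.sum_congr rfl fun m _ => ?_
  rw [map_mul, mo_map, MvPolynomial.coeff_map]

theorem bd_map {R S : Type} [CommRing R] [CommRing S] (ψ : R →+* S) (a : Fin 5 → R)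
    (x : Fin 2 → R) (k : Fin 2) :
    ψ (bd a x k) = bd (fun i => ψ (a i)) (fun i => ψ (x i)) k := by
  unfold bd
  fin_cases k <;> simp [map_ofNat]

theorem smb : S_SMB := by
  intro K K' _ _ _ _ φ n f hf x hx
  letI : Algebra K K' := φ.toAlgebra
  haveI : Algebra.IsAlgebraic K K' := by
    haveI : IsScalarTower ℚ K K' := IsScalarTower.of_algebraMap_eq fun q => by
      rw [eq_ratCast, eq_ratCast]
      exact (map_ratCast (algebraMap K K') q).symm
    exact Algebra.IsAlgebraic.tower_top (K := ℚ) K
  haveI : Algebra.IsAlgebraic K (AlgebraicClosure K') :=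
    Algebra.IsAlgebraic.trans K K' (AlgebraicClosure K')
  haveI : IsAlgClosure K (AlgebraicClosure K') := ⟨inferInstance, inferInstance⟩
  let e : AlgebraicClosure K' ≃ₐ[K] AlgebraicClosure K :=
    IsAlgClosure.equiv K (AlgebraicClosure K') (AlgebraicClosure K)
  obtain ⟨i, k, hik⟩ := hf (fun j l => e (x j l)) (fun j hj => hx j (funext fun l => by
    have h1 := congrFun hj l
    exact e.injective (by rw [h1]; simp)))
  refine ⟨i, k, fun h0 => hik ?_⟩
  have h1 := congrArg (e : AlgebraicClosure K' →+* AlgebraicClosure K) h0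
  rw [map_zero, bd_map] at h1
  rw [← h1]
  have h2 : (fun l => (e : AlgebraicClosure K' →+* AlgebraicClosure K)
      (lc (map (algebraMap K' (AlgebraicClosure K')) (map φ f)) x i l)) =
      lc (map (algebraMap K (AlgebraicClosure K)) f) (fun j l => e (x j l)) i := by
    funext l
    rw [lc_map, MvPolynomial.map_map, MvPolynomial.map_map]
    have h4 : ((e : AlgebraicClosure K' →+* AlgebraicClosure K).comp
        (algebraMap K' (AlgebraicClosure K'))).comp φ = algebraMap K (AlgebraicClosure K) := by
      refine RingHom.ext fun z => ?_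
      have h3 := e.commutes z
      rw [IsScalarTower.algebraMap_apply K K' (AlgebraicClosure K')] at h3
      exact h3
    first
      | rw [h4]
      | rw [← RingHom.comp_assoc, h4]
    rfl
  rw [h2]
  rfl

end Pool.Agent.Q221.ZC
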